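import Mathlib

/-!
The link matrices of a discrete torus, their coefficients, and their signed double covers.
-/

namespace Pool.Agent.Lib.MP_64d474_lc.Sym

/-- Nodes of the discrete torus with `M + 1` columns and `M + 1` rows. -/
abbrev Nd (M : ℕ) : Type := Fin (M + 1) × Fin (M + 1)

/-- The next node in direction `d` (`false`: second coordinate, `true`: first coordinate). -/
def nxt {M : ℕ} (d : Bool) (n : Nd M) : Nd M := if d then (n.1 + 1, n.2) else (n.1, n.2 + 1)

/-- The previous node in direction `d`. -/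
def prv {M : ℕ} (d : Bool) (n : Nd M) : Nd M := if d then (n.1 - 1, n.2) else (n.1, n.2 - 1)

/-- Sign of the variable kind `x` in rows of direction `d`. -/
def sg (d x : Bool) : ℤ := if d = false ∧ x = true then -1 else 1

/-- Coefficient of the variable `x` in the entry (row `r`, column `c`) of the torus matrix with
link signs `s`. -/
def base {M : ℕ} (s : Bool × Nd M → ℤˣ) (r c x : Bool × Nd M) : ℤ :=
  if c.2 = x.2 then
    (if r.2 = c.2 ∧ xor c.1 x.1 = false then sg r.1 x.1 else 0) +
    (if r.2 = nxt r.1 c.2 ∧ xor c.1 x.1 = true then (s r : ℤ) * sg r.1 x.1 else 0)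
  else 0

/-- Coefficients of the doubled matrix. -/
def dbl {M : ℕ} (s : Bool × Nd M → ℤˣ) (r c x : (Bool × Nd M) × ℤˣ) : ℤ :=
  ((r.2 * c.2 * x.2 : ℤˣ) : ℤ) * base s r.1 c.1 x.1 +
    if r.1.2 = c.1.2 ∧ c.1.2 = x.1.2 ∧ xor c.1.1 x.1.1 = r.1.1 then 1 else 0

/-- Link signs of the nonsingular matrix. -/
def s0 {M : ℕ} (r : Bool × Nd M) : ℤˣ := if r.1 = false ∧ r.2.1 = 0 then -1 else 1

/-- The link whose sign is changed. -/
def r0 {M : ℕ} : Bool × Nd M := (false, (0, 0))

/-- Link signs of the singular matrix. -/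
def s1 {M : ℕ} (r : Bool × Nd M) : ℤˣ := if r = r0 then - s0 r else s0 r

@[simp] theorem prv_nxt {M : ℕ} (d : Bool) (n : Nd M) : prv d (nxt d n) = n := by
  cases d <;> simp [prv, nxt]

@[simp] theorem nxt_prv {M : ℕ} (d : Bool) (n : Nd M) : nxt d (prv d n) = n := by
  cases d <;> simp [prv, nxt]

theorem nxt_inj {M : ℕ} (d : Bool) {n n' : Nd M} (h : nxt d n = nxt d n') : n = n' := by
  have := congrArg (prv d) h
  simpa using this

theorem eq_nxt_iff {M : ℕ} (d : Bool) (m n : Nd M) : m = nxt d n ↔ prv d m = n := by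
  constructor
  · rintro rfl; simp
  · rintro rfl; simp

section Matrices

variable {M : ℕ} {R : Type*} [CommRing R]

/-- The torus matrix with link signs `s`, evaluated at `X`. -/
def matA (s : Bool × Nd M → ℤˣ) (X : Bool × Nd M → R) : Matrix (Bool × Nd M) (Bool × Nd M) R :=
  fun r c => (if r.2 = c.2 then (sg r.1 c.1 : R) * X c else 0) +
    (if r.2 = nxt r.1 c.2 then ((s r : ℤ) : R) * (sg r.1 (!c.1) : R) * X (!c.1, c.2) else 0)

/-- The companion matrix. -/
def matB (s : Bool × Nd M → ℤˣ) (X : Bool × Nd M → R) : Matrix (Bool × Nd M) (Bool × Nd M) R :=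
  fun r c => (if r.2 = c.2 then (if r.1 then -1 else 1) * (sg r.1 c.1 : R) * X c else 0) +
    (if r.2 = nxt r.1 c.2 then
      (if r.1 then 1 else -1) * ((s r : ℤ) : R) * (sg r.1 (!c.1) : R) * X (!c.1, c.2) else 0)

theorem sum_base (s : Bool × Nd M → ℤˣ) (X : Bool × Nd M → R) (r c : Bool × Nd M) :
    ∑ x, (base s r c x : R) * X x = matA s X r c := by
  rw [Fintype.sum_prod_type]
  simp only [Fintype.sum_bool, base, matA]
  obtain ⟨rd, rn⟩ := r
  obtain ⟨cb, cn⟩ := c
  have h : ∀ b : Bool, ∑ x : Nd M, (((if cn = x then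
      (if rn = cn ∧ xor cb b = false then sg rd b else 0) +
      (if rn = nxt rd cn ∧ xor cb b = true then (s (rd, rn) : ℤ) * sg rd b else 0) else 0 : ℤ)) : R)
        * X (b, x) =
      (((if rn = cn ∧ xor cb b = false then sg rd b else 0) +
      (if rn = nxt rd cn ∧ xor cb b = true then (s (rd, rn) : ℤ) * sg rd b else 0) : ℤ) : R)
        * X (b, cn) := by
    intro b
    rw [Finset.sum_eq_single cn]
    · simp
    · intro n _ hn
      simp [hn.symm]
    · simp
  simp only [h]
  cases cb
  · simp [add_comm]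
  · simp

end Matrices

end Pool.Agent.Lib.MP_64d474_lc.Sym
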