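import Mathlib

/-!
Infinitary logic with counting and `k` variables over the vocabulary of symbolic matrices:
a symbolic matrix is the three-sorted structure with sorts rows, columns, variables and
the coefficient relations `coefficient of variable x in entry (r, c) is z`.
-/

namespace Pool.Agent.Lib.MP_64d474_lc.Sym

/-- The symbolic matrix with coefficients `a`: entry `(i, j)` is the linear form
`∑ x, a i j x * X x`. -/
noncomputable def symMat {I V : Type} [Fintype V] (a : I → I → V → ℤ) :
    Matrix I I (MvPolynomial V ℤ) :=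
  fun i j => ∑ x, MvPolynomial.C (a i j x) * MvPolynomial.X x

/-- Formulas of infinitary counting logic with the `k` first-order variables `0, …, k-1`. -/
inductive CForm (k : ℕ) : Type 1
  | isRow (i : Fin k) : CForm k
  | isCol (i : Fin k) : CForm k
  | isVar (i : Fin k) : CForm k
  | eq (i j : Fin k) : CForm k
  | coef (z : ℤ) (i j l : Fin k) : CForm k
  | neg (φ : CForm k) : CForm k
  | conj (ι : Type) (φ : ι → CForm k) : CForm k
  | atLeast (m : ℕ) (i : Fin k) (φ : CForm k) : CForm k

/-- Satisfaction in the structure of the symbolic matrix with coefficients `a r c x`;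
its elements are the rows, the columns and the variables. -/
def Holds {k : ℕ} {R C X : Type} (a : R → C → X → ℤ) :
    CForm k → (Fin k → R ⊕ C ⊕ X) → Prop
  | .isRow i, v => ∃ r, v i = Sum.inl r
  | .isCol i, v => ∃ c, v i = Sum.inr (Sum.inl c)
  | .isVar i, v => ∃ x, v i = Sum.inr (Sum.inr x)
  | .eq i j, v => v i = v j
  | .coef z i j l, v => ∃ r c x, v i = Sum.inl r ∧ v j = Sum.inr (Sum.inl c) ∧
      v l = Sum.inr (Sum.inr x) ∧ a r c x = z
  | .neg φ, v => ¬ Holds a φ v
  | .conj _ φ, v => ∀ t, Holds a (φ t) v
  | .atLeast m i φ, v => ∃ f : Fin m ↪ R ⊕ C ⊕ X, ∀ t, Holds a φ (Function.update v i (f t))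

end Pool.Agent.Lib.MP_64d474_lc.Sym
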