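import Pool.Agent.Lib.MP_64d474_lc.Sym.Nonsing
import Pool.Agent.Lib.MP_64d474_lc.Sym.Defs

namespace Pool.Agent.Lib.MP_64d474_lc.Sym

open Matrix

section Double

variable {M : ℕ}

/-- The index type of the doubled matrices. -/
abbrev Ix (M : ℕ) : Type := (Bool × Nd M) × ℤˣ

/-- Differences of the doubled variables. -/
noncomputable def dX (c : Bool × Nd M) : MvPolynomial (Ix M) ℤ :=
  MvPolynomial.X (c, 1) - MvPolynomial.X (c, -1)

/-- The sign independent part of the doubled matrix. -/
noncomputable def eE (r c : Bool × Nd M) : MvPolynomial (Ix M) ℤ :=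
  ∑ x : Bool × Nd M, MvPolynomial.C (if r.2 = c.2 ∧ c.2 = x.2 ∧ xor c.1 x.1 = r.1 then 1 else 0) *
    (MvPolynomial.X (x, 1) + MvPolynomial.X (x, -1))

theorem sum_units {A : Type*} [AddCommMonoid A] (f : ℤˣ → A) : ∑ t, f t = f 1 + f (-1) := by
  rw [show (Finset.univ : Finset ℤˣ) = {1, -1} from by decide]
  rw [Finset.sum_pair (by decide)]

theorem symMat_dbl (s : Bool × Nd M → ℤˣ) (r c : Bool × Nd M) (σ τ : ℤˣ) :
    symMat (dbl s) (r, σ) (c, τ) =
      (((σ * τ : ℤˣ) : ℤ) : MvPolynomial (Ix M) ℤ) * matA s dX r c + eE r c := by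
  rw [symMat, ← sum_base, eE, Finset.mul_sum, ← Finset.sum_add_distrib, Fintype.sum_prod_type]
  refine Finset.sum_congr rfl fun x _ => ?_
  rw [sum_units]
  simp only [dbl, dX, mul_one, mul_neg, Units.val_neg, map_add, map_mul, map_neg,
    neg_mul, Int.cast_mul, Units.val_mul]
  simp only [eq_intCast, Int.cast_ite, Int.cast_one, Int.cast_zero]
  ring

/-- Evaluation at the test point. -/
noncomputable def ev (M : ℕ) : MvPolynomial (Ix M) ℤ →+* ℤ :=
  MvPolynomial.eval fun i => if i.1.1 = false ∧ i.2 = 1 then 1 else 0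

theorem ev_dX (c : Bool × Nd M) : ev M (dX c) = X0 c := by
  obtain ⟨b, n⟩ := c
  have h1 : ((-1 : ℤˣ) = 1) = False := by decide
  cases b <;> simp [ev, dX, X0, h1]

theorem map_matA {R S : Type*} [CommRing R] [CommRing S] (f : R →+* S) (s : Bool × Nd M → ℤˣ)
    (X : Bool × Nd M → R) : (matA s X).map f = matA s (fun c => f (X c)) := by
  ext r c
  simp only [Matrix.map_apply, matA, map_add, apply_ite f, map_zero, map_mul, map_intCast]

theorem ev_eE (r c : Bool × Nd M) : ev M (eE r c) = if r = c then 1 else 0 := by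
  have h1 : ((-1 : ℤˣ) = 1) = False := by decide
  obtain ⟨rd, rn⟩ := r
  obtain ⟨cb, cn⟩ := c
  rw [eE, map_sum, Fintype.sum_prod_type, Fintype.sum_bool]
  simp only [map_mul, map_add, ev, MvPolynomial.eval_C, MvPolynomial.eval_X, h1, and_false,
    if_false, add_zero, Bool.true_eq_false, mul_zero, Finset.sum_const_zero, zero_add,
    and_true, if_true, mul_one]
  rw [Finset.sum_eq_single cn]
  · by_cases h : rn = cn
    · subst h
      cases rd <;> cases cb <;> simp
    · simp [h]
  · intro n _ hn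
    simp [hn.symm]
  · simp

theorem det_s0_ne_zero : (matA s0 (dX (M := M))).det ≠ 0 := by
  intro h
  have h1 := congrArg (ev M) h
  rw [map_zero, RingHom.map_det, RingHom.mapMatrix_apply, map_matA] at h1
  simp only [ev_dX] at h1
  obtain ⟨v, hv0, hv⟩ := Matrix.exists_mulVec_eq_zero_iff.2 h1
  exact hv0 (kernel_X0 (by norm_num) v hv)

theorem nrm_dX_ne_zero (c : Bool × Nd M) : nrm (dX (M := M)) c ≠ 0 := by
  intro h
  have h1 := congrArg (ev M) h
  rw [nrm, map_add, map_mul, map_mul, ev_dX, ev_dX, map_zero] at h1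
  simp [X0] at h1

theorem det_s1_eq_zero : (matA s1 (dX (M := M))).det = 0 :=
  det_A_s1_eq_zero (by norm_num) _ nrm_dX_ne_zero det_s0_ne_zero

/-- The second doubled matrix is identically singular. -/
theorem det_dbl_s1 : (symMat (dbl (M := M) s1)).det = 0 := by
  obtain ⟨w, hw0, hw⟩ := Matrix.exists_mulVec_eq_zero_iff.2 (det_s1_eq_zero (M := M))
  refine Matrix.exists_mulVec_eq_zero_iff.1
    ⟨fun c => ((c.2 : ℤ) : MvPolynomial (Ix M) ℤ) * w c.1, ?_, ?_⟩
  · intro h
    apply hw0
    funext c
    have := congrFun h (c, 1)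
    simpa using this
  · funext r
    obtain ⟨r, σ⟩ := r
    rw [Matrix.mulVec, dotProduct, Fintype.sum_prod_type]
    simp only [sum_units, symMat_dbl]
    have h1 := congrFun hw r
    rw [Matrix.mulVec, dotProduct] at h1
    have h2 : ∀ c : Bool × Nd M,
        ((((σ * 1 : ℤˣ) : ℤ) : MvPolynomial (Ix M) ℤ) * matA s1 dX r c + eE r c) *
          ((((1 : ℤˣ) : ℤ) : MvPolynomial (Ix M) ℤ) * w c) +
        ((((σ * -1 : ℤˣ) : ℤ) : MvPolynomial (Ix M) ℤ) * matA s1 dX r c + eE r c) *
          ((((-1 : ℤˣ) : ℤ) : MvPolynomial (Ix M) ℤ) * w c) =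
        2 * ((σ : ℤ) : MvPolynomial (Ix M) ℤ) * (matA s1 dX r c * w c) := by
      intro c
      simp only [mul_one, mul_neg, Units.val_neg, Units.val_one, Int.cast_neg, Int.cast_one]
      ring
    simp only [h2]
    rw [← Finset.mul_sum, h1]
    simp

/-- The first doubled matrix is not identically singular. -/
theorem det_dbl_s0 : (symMat (dbl (M := M) s0)).det ≠ 0 := by
  intro h
  have h1 := congrArg (ev M) h
  rw [map_zero, RingHom.map_det, RingHom.mapMatrix_apply] at h1
  obtain ⟨v, hv0, hv⟩ := Matrix.exists_mulVec_eq_zero_iff.2 h1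
  have key : ∀ r σ, ∑ c : Bool × Nd M,
      ((((σ : ℤˣ) : ℤ) * matA s0 X0 r c + (if r = c then 1 else 0)) * v (c, 1) +
       (- ((σ : ℤˣ) : ℤ) * matA s0 X0 r c + (if r = c then 1 else 0)) * v (c, -1)) = 0 := by
    intro r σ
    have h2 := congrFun hv (r, σ)
    rw [Matrix.mulVec, dotProduct, Fintype.sum_prod_type] at h2
    simp only [sum_units, Matrix.map_apply, symMat_dbl, map_add, map_mul, map_intCast, ev_eE] at h2
    have h3 : ∀ c, ev M (matA s0 dX r c) = matA s0 X0 r c := by
      intro c
      have := congrFun (congrFun (map_matA (ev M) s0 (dX (M := M))) r) c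
      simp only [Matrix.map_apply, ev_dX] at this
      exact this
    simp only [h3] at h2
    simpa using h2
  have hd : matA s0 X0 *ᵥ (fun c => v (c, 1) - v (c, -1)) = 0 := by
    funext r
    have k1 := key r 1
    have k2 := key r (-1)
    rw [Matrix.mulVec, dotProduct]
    have : 2 * ∑ c, matA s0 X0 r c * (v (c, 1) - v (c, -1)) = 0 := by
      have e := congrArg₂ (fun a b : ℤ => a - b) k1 k2
      simp only [← Finset.sum_sub_distrib, sub_zero] at e
      rw [Finset.mul_sum, ← e]
      refine Finset.sum_congr rfl fun c _ => ?_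
      simp only [Units.val_neg, Units.val_one]
      ring
    simpa using this
  have hd0 := kernel_X0 (R := ℤ) (by norm_num) _ hd
  have hs : ∀ r, v (r, 1) + v (r, -1) = 0 := by
    intro r
    have k1 := key r 1
    have k2 := key r (-1)
    have : 2 * (v (r, 1) + v (r, -1)) = 0 := by
      have e : ∑ c : Bool × Nd M, 2 * (if r = c then (v (c, 1) + v (c, -1)) else 0) = 0 := by
        have e := congrArg₂ (fun a b : ℤ => a + b) k1 k2
        simp only [← Finset.sum_add_distrib, add_zero] at e
        refine Eq.trans (Finset.sum_congr rfl fun c _ => ?_) e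
        simp only [Units.val_neg, Units.val_one]
        split_ifs <;> ring
      rw [← Finset.mul_sum, Finset.sum_ite_eq] at e
      simpa using e
    omega
  apply hv0
  funext c
  obtain ⟨c, τ⟩ := c
  have e1 := congrFun hd0 c
  have e2 := hs c
  simp only [Pi.zero_apply] at e1
  rcases Int.units_eq_one_or τ with rfl | rfl
  · simp only [Pi.zero_apply]; omega
  · simp only [Pi.zero_apply]; omega

end Double

end Pool.Agent.Lib.MP_64d474_lc.Sym
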