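import Pool.Agent.Lib.MP_64d474_lc.Sym.Game
import Pool.Agent.Lib.MP_64d474_lc.Sym.Double

namespace Pool.Agent.Lib.MP_64d474_lc.Sym

/-- Isomorphic symbolic matrices satisfy the same formulas. -/
theorem holds_iso {k : ℕ} {I J : Type} (e : I ≃ J) (a : I → I → I → ℤ) (φ : CForm k) :
    (∀ v, Holds (fun i j l => a (e.symm i) (e.symm j) (e.symm l)) φ v) ↔ (∀ w, Holds a φ w) := by
  let E : I ⊕ I ⊕ I ≃ J ⊕ J ⊕ J := Equiv.sumCongr e (Equiv.sumCongr e e)
  have key : ∀ v w, (∀ j, w j = E (v j)) → (Holds a φ v ↔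
      Holds (fun i j l => a (e.symm i) (e.symm j) (e.symm l)) φ w) := by
    intro v w h
    refine holds_iff_of_backforth a (fun i j l => a (e.symm i) (e.symm j) (e.symm l))
      (fun v w => ∀ j, w j = E (v j)) ?_ ?_ φ v w h
    · intro v w hw
      refine ⟨fun i => ?_, fun i => ?_, fun i => ?_, fun i j => ?_, fun z i j l => ?_⟩
      · rw [hw i]
        rcases v i with r | c | x <;> simp [E]
      · rw [hw i]
        rcases v i with r | c | x <;> simp [E]
      · rw [hw i]
        rcases v i with r | c | x <;> simp [E]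
      · rw [hw i, hw j]
        exact E.injective.eq_iff.symm
      · constructor
        · rintro ⟨r, c, x, hi, hj, hl, hz⟩
          refine ⟨e r, e c, e x, ?_, ?_, ?_, ?_⟩
          · rw [hw i, hi]; rfl
          · rw [hw j, hj]; rfl
          · rw [hw l, hl]; rfl
          · simpa using hz
        · rintro ⟨r, c, x, hi, hj, hl, hz⟩
          refine ⟨e.symm r, e.symm c, e.symm x, ?_, ?_, ?_, hz⟩
          · apply E.injective
            rw [← hw i, hi]; simp [E]
          · apply E.injective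
            rw [← hw j, hj]; simp [E]
          · apply E.injective
            rw [← hw l, hl]; simp [E]
    · intro v w hw i
      refine ⟨E, fun u j => ?_⟩
      by_cases hj : j = i
      · subst hj; simp
      · simp [hj, hw j]
  constructor
  · intro h w
    exact (key w (fun j => E (w j)) fun _ => rfl).2 (h _)
  · intro h v
    exact (key (fun j => E.symm (v j)) v fun j => (E.apply_symm_apply _).symm).1 (h _)

theorem symMat_iso {I J : Type} [Fintype I] [Fintype J] (e : I ≃ J) (a : I → I → I → ℤ)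
    (i j : J) : symMat (fun i j l => a (e.symm i) (e.symm j) (e.symm l)) i j =
      MvPolynomial.rename e (symMat a (e.symm i) (e.symm j)) := by
  simp only [symMat, map_sum, map_mul, MvPolynomial.rename_C, MvPolynomial.rename_X]
  rw [← e.sum_comp]
  simp

theorem det_iso {I J : Type} [Fintype I] [Fintype J] [DecidableEq I] [DecidableEq J] (e : I ≃ J)
    (a : I → I → I → ℤ) :
    (symMat (fun i j l => a (e.symm i) (e.symm j) (e.symm l))).det =
      MvPolynomial.rename e (symMat a).det := by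
  have h : symMat (fun i j l => a (e.symm i) (e.symm j) (e.symm l)) =
      ((symMat a).map (MvPolynomial.rename e)).submatrix e.symm e.symm := by
    ext1 i j
    rw [symMat_iso]
    rfl
  rw [h, Matrix.det_submatrix_equiv_self, AlgHom.map_det]
  rfl

theorem dbl_range {M : ℕ} (s : Bool × Nd M → ℤˣ) (r c x : (Bool × Nd M) × ℤˣ) :
    dbl s r c x ∈ ({-1, 0, 1, 2} : Set ℤ) := by
  have hb : base s r.1 c.1 x.1 = -1 ∨ base s r.1 c.1 x.1 = 0 ∨ base s r.1 c.1 x.1 = 1 := by
    have hs : ((s r.1 : ℤˣ) : ℤ) = 1 ∨ ((s r.1 : ℤˣ) : ℤ) = -1 := by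
      rcases Int.units_eq_one_or (s r.1) with h | h <;> simp [h]
    have hg : sg r.1.1 x.1.1 = 1 ∨ sg r.1.1 x.1.1 = -1 := by
      unfold sg; split_ifs <;> simp
    unfold base
    cases hx : xor c.1.1 x.1.1 <;> rcases hs with hs | hs <;> rcases hg with hg | hg <;>
      simp [hs, hg] <;> split_ifs <;> simp <;> tauto
  have hu : ((r.2 * c.2 * x.2 : ℤˣ) : ℤ) = 1 ∨ ((r.2 * c.2 * x.2 : ℤˣ) : ℤ) = -1 := by
    rcases Int.units_eq_one_or (r.2 * c.2 * x.2) with h | h <;> simp [h]
  have hgoal : dbl s r c x = -1 ∨ dbl s r c x = 0 ∨ dbl s r c x = 1 ∨ dbl s r c x = 2 := by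
    unfold dbl
    rcases hu with hu | hu <;> rcases hb with hb | hb | hb <;> rw [hu, hb] <;> split_ifs <;> simp
  simpa using hgoal

theorem main (k : ℕ) :
    ∃ a b : Fin (4 * (k + 1) ^ 2) → Fin (4 * (k + 1) ^ 2) → Fin (4 * (k + 1) ^ 2) → ℤ,
      (∀ i j l, a i j l ∈ ({-1, 0, 1, 2} : Set ℤ)) ∧ (∀ i j l, b i j l ∈ ({-1, 0, 1, 2} : Set ℤ)) ∧
      (symMat a).det ≠ 0 ∧ (symMat b).det = 0 ∧
      ∀ φ : CForm k, (∀ v, Holds a φ v) ↔ (∀ v, Holds b φ v) := by
  have hcard : Fintype.card (Ix k) = 4 * (k + 1) ^ 2 := by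
    simp [Fintype.card_prod]
    ring
  let e : Ix k ≃ Fin (4 * (k + 1) ^ 2) := Fintype.equivFinOfCardEq hcard
  refine ⟨fun i j l => dbl s0 (e.symm i) (e.symm j) (e.symm l),
    fun i j l => dbl s1 (e.symm i) (e.symm j) (e.symm l), fun i j l => dbl_range _ _ _ _,
    fun i j l => dbl_range _ _ _ _, ?_, ?_, ?_⟩
  · rw [det_iso e (dbl s0)]
    intro h
    apply det_dbl_s0 (M := k)
    apply MvPolynomial.rename_injective e e.injective
    rw [h, map_zero]
  · rw [det_iso e (dbl s1), det_dbl_s1, map_zero]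
  · intro φ
    rw [holds_iso e (dbl s0) φ, holds_iso e (dbl s1) φ]
    exact same_formulas le_rfl φ

end Pool.Agent.Lib.MP_64d474_lc.Sym
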