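import Pool.Agent.Lib.MP_64d474_lc.Sym.Defs

namespace Pool.Agent.Lib.MP_64d474_lc.Sym

/-- Agreement of two assignments on all atomic formulas. -/
def AtomEq {k : ℕ} {R C X R' C' X' : Type} (a : R → C → X → ℤ) (b : R' → C' → X' → ℤ)
    (v : Fin k → R ⊕ C ⊕ X) (w : Fin k → R' ⊕ C' ⊕ X') : Prop :=
  (∀ i, (∃ r, v i = Sum.inl r) ↔ (∃ r, w i = Sum.inl r)) ∧
  (∀ i, (∃ c, v i = Sum.inr (Sum.inl c)) ↔ (∃ c, w i = Sum.inr (Sum.inl c))) ∧
  (∀ i, (∃ x, v i = Sum.inr (Sum.inr x)) ↔ (∃ x, w i = Sum.inr (Sum.inr x))) ∧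
  (∀ i j, v i = v j ↔ w i = w j) ∧
  (∀ z i j l, (∃ r c x, v i = Sum.inl r ∧ v j = Sum.inr (Sum.inl c) ∧
      v l = Sum.inr (Sum.inr x) ∧ a r c x = z) ↔
    (∃ r c x, w i = Sum.inl r ∧ w j = Sum.inr (Sum.inl c) ∧
      w l = Sum.inr (Sum.inr x) ∧ b r c x = z))

/-- A back-and-forth system with bijections (a winning strategy in the bijective pebble game)
preserves all formulas. -/
theorem holds_iff_of_backforth {k : ℕ} {R C X R' C' X' : Type} (a : R → C → X → ℤ)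
    (b : R' → C' → X' → ℤ)
    (Z : (Fin k → R ⊕ C ⊕ X) → (Fin k → R' ⊕ C' ⊕ X') → Prop)
    (hat : ∀ v w, Z v w → AtomEq a b v w)
    (hbf : ∀ v w, Z v w → ∀ i, ∃ e : (R ⊕ C ⊕ X) ≃ (R' ⊕ C' ⊕ X'),
      ∀ u, Z (Function.update v i u) (Function.update w i (e u)))
    (φ : CForm k) : ∀ v w, Z v w → (Holds a φ v ↔ Holds b φ w) := by
  induction φ with
  | isRow i => intro v w h; exact (hat v w h).1 i
  | isCol i => intro v w h; exact (hat v w h).2.1 i
  | isVar i => intro v w h; exact (hat v w h).2.2.1 i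
  | eq i j => intro v w h; exact (hat v w h).2.2.2.1 i j
  | coef z i j l => intro v w h; exact (hat v w h).2.2.2.2 z i j l
  | neg φ ih => intro v w h; exact not_congr (ih v w h)
  | conj ι φ ih => intro v w h; exact forall_congr' fun t => ih t v w h
  | atLeast m i φ ih =>
    intro v w h
    obtain ⟨e, he⟩ := hbf v w h i
    constructor
    · rintro ⟨f, hf⟩
      refine ⟨f.trans e.toEmbedding, fun t => ?_⟩
      exact (ih _ _ (he (f t))).1 (hf t)
    · rintro ⟨f, hf⟩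
      refine ⟨f.trans e.symm.toEmbedding, fun t => ?_⟩
      have := ih _ _ (he (e.symm (f t)))
      rw [Equiv.apply_symm_apply] at this
      exact this.2 (hf t)

end Pool.Agent.Lib.MP_64d474_lc.Sym
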