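import Pool.Agent.Lib.MP_64d474_lc.Sym.Move
import Pool.Agent.Lib.MP_64d474_lc.Sym.Logic

namespace Pool.Agent.Lib.MP_64d474_lc.Sym

section Game

variable {M : ℕ}

/-- Elements of the structures. -/
abbrev El (M : ℕ) : Type :=
  ((Bool × Nd M) × ℤˣ) ⊕ ((Bool × Nd M) × ℤˣ) ⊕ ((Bool × Nd M) × ℤˣ)

/-- The site of an element. -/
def site : El M → Site M
  | .inl r => .inl r.1
  | .inr (.inl c) => .inr c.1.2
  | .inr (.inr x) => .inr x.1.2

/-- The map of structures given by a gauge. -/
def gmap (g : Gauge M) : El M → El M := Sum.map (rowMap g) (Sum.map (colMap g) (varMap g))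

theorem gmap_inj (g : Gauge M) : Function.Injective (gmap g) :=
  (rowMap_inj g).sumMap ((colMap_inj g).sumMap (varMap_inj g))

/-- The gauge map as an equivalence. -/
noncomputable def gequiv (g : Gauge M) : El M ≃ El M :=
  Equiv.ofBijective (gmap g) (Finite.injective_iff_bijective.1 (gmap_inj g))

theorem site_gmap (g : Gauge M) (u : El M) : site (gmap g u) = site u := by
  rcases u with r | c | x <;> rfl

theorem gmap_congr {g g' : Gauge M} {u : El M} (h : Agree g g' (site u)) :
    gmap g u = gmap g' u := by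
  rcases u with r | c | x
  · have h' : g.rho r.1 = g'.rho r.1 := h
    simp [gmap, rowMap, h']
  · have h' : g.eps c.1.2 = g'.eps c.1.2 := h
    simp [gmap, colMap, h']
  · have h' : g.eps x.1.2 = g'.eps x.1.2 := h
    simp [gmap, varMap, h']

/-- The positions of the strategy. -/
def Pos {k : ℕ} (v w : Fin k → El M) : Prop :=
  ∃ (g : Gauge M) (n0 : Nd M) (d0 e0 : Bool), HasDef g n0 d0 e0 ∧
    (∀ j, w j = gmap g (v j)) ∧
    ∀ i j, OnLine d0 (crd d0 n0) (site (v i)) → OnLine d0 (crd d0 n0) (site (v j)) → i = j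

theorem pos_atom {k : ℕ} (v w : Fin k → El M) (h : Pos v w) :
    AtomEq (dbl (M := M) s0) (dbl s1) v w := by
  obtain ⟨g, n0, d0, e0, hdef, hw, hline⟩ := h
  have hkey : ∀ i j r c x, v i = Sum.inl r → v j = Sum.inr (Sum.inl c) →
      dbl s1 (rowMap g r) (colMap g c) (varMap g x) = dbl s0 r c x := by
    rintro i j ⟨⟨d, m⟩, σ⟩ ⟨⟨c, n⟩, τ⟩ ⟨⟨x, n'⟩, ω⟩ hi hj
    refine dbl_gauge g d m σ c n τ x n' ω fun _ => ⟨fun hm => ?_, fun hm => ?_⟩
    · rw [hdef n d false]
      rw [if_neg]
      rintro ⟨rfl, rfl, rfl⟩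
      have := hline i j (by rw [hi]; exact ⟨rfl, by rw [hm]⟩) (by rw [hj]; exact rfl)
      subst this
      rw [hi] at hj
      cases hj
    · rw [hdef n d true]
      rw [if_neg]
      rintro ⟨rfl, rfl, rfl⟩
      have := hline i j (by rw [hi]; exact ⟨rfl, by simp [hm]⟩) (by rw [hj]; exact rfl)
      subst this
      rw [hi] at hj
      cases hj
  refine ⟨fun i => ?_, fun i => ?_, fun i => ?_, fun i j => ?_, fun z i j l => ?_⟩
  · rw [hw i]
    rcases hv : v i with r | c | x <;> simp [gmap]
  · rw [hw i]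
    rcases hv : v i with r | c | x <;> simp [gmap]
  · rw [hw i]
    rcases hv : v i with r | c | x <;> simp [gmap]
  · rw [hw i, hw j]
    exact (gmap_inj g).eq_iff.symm
  · constructor
    · rintro ⟨r, c, x, hi, hj, hl, hz⟩
      refine ⟨rowMap g r, colMap g c, varMap g x, ?_, ?_, ?_, ?_⟩
      · rw [hw i, hi]; rfl
      · rw [hw j, hj]; rfl
      · rw [hw l, hl]; rfl
      · rw [hkey i j r c x hi hj, hz]
    · rintro ⟨r', c', x', hi, hj, hl, hz⟩
      rw [hw i] at hi
      rw [hw j] at hj
      rw [hw l] at hl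
      rcases hvi : v i with r | c | x
      · rcases hvj : v j with r2 | c | x
        · rw [hvj] at hj; simp [gmap] at hj
        · rcases hvl : v l with r3 | c3 | x
          · rw [hvl] at hl; simp [gmap] at hl
          · rw [hvl] at hl; simp [gmap] at hl
          · rw [hvi] at hi; rw [hvj] at hj; rw [hvl] at hl
            simp only [gmap, Sum.map_inl, Sum.map_inr, Sum.inl.injEq, Sum.inr.injEq] at hi hj hl
            refine ⟨r, c, x, rfl, rfl, rfl, ?_⟩
            rw [← hkey i j r c x hvi hvj, hi, hj, hl, hz]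
        · rw [hvj] at hj; simp [gmap] at hj
      · rw [hvi] at hi; simp [gmap] at hi
      · rw [hvi] at hi; simp [gmap] at hi

/-- Coordinate of the only line of direction `d` that may contain the site. -/
def lineOf (d : Bool) : Site M → Fin (M + 1)
  | .inl r => crd d r.2
  | .inr n => crd d n

theorem onLine_lineOf {d : Bool} {c : Fin (M + 1)} {s : Site M} (h : OnLine d c s) :
    lineOf d s = c := by
  rcases s with r | n
  · exact h.2
  · exact h

theorem exists_free {k : ℕ} (hk : k ≤ M) (v : Fin k → El M) (d : Bool) :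
    ∃ c : Fin (M + 1), ∀ j, ¬ OnLine d c (site (v j)) := by
  by_contra hcon
  push Not at hcon
  have hs : Function.Surjective (fun j => lineOf d (site (v j))) := by
    intro c
    obtain ⟨j, hj⟩ := hcon c
    exact ⟨j, onLine_lineOf hj⟩
  have := Fintype.card_le_of_surjective _ hs
  simp at this
  omega

/-- The node with prescribed coordinates. -/
def mkNode (d : Bool) (c p : Fin (M + 1)) : Nd M := if d then (p, c) else (c, p)

theorem crd_mkNode (d : Bool) (c p : Fin (M + 1)) : crd d (mkNode d c p) = c := by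
  cases d <;> rfl

theorem crd_not_mkNode (d : Bool) (c p : Fin (M + 1)) : crd (!d) (mkNode d c p) = p := by
  cases d <;> rfl

/-- From a gauge with one defect we reach a line without pebbles. -/
theorem exists_move {k : ℕ} (hk : k ≤ M) (g : Gauge M) (n0 : Nd M) (d0 e0 : Bool)
    (h : HasDef g n0 d0 e0) (v : Fin k → El M)
    (hline : ∀ i j, OnLine d0 (crd d0 n0) (site (v i)) → OnLine d0 (crd d0 n0) (site (v j)) →
      i = j) :
    ∃ (g' : Gauge M) (n1 : Nd M), HasDef g' n1 (!d0) false ∧
      (∀ j, gmap g (v j) = gmap g' (v j)) ∧ ∀ j, ¬ OnLine (!d0) (crd (!d0) n1) (site (v j)) := by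
  obtain ⟨c, hc⟩ := exists_free hk v (!d0)
  by_cases hex : ∃ j, OnLine d0 (crd d0 n0) (site (v j))
  · obtain ⟨j0, hj0⟩ := hex
    obtain ⟨g', h1, h2, h3⟩ := move g n0 d0 e0 h (mkNode d0 (crd d0 n0) c)
      (crd_mkNode _ _ _) (site (v j0)) (by
        intro heq
        apply hc j0
        rw [heq]
        exact crd_not_mkNode _ _ _)
    refine ⟨g', _, h1, fun j => gmap_congr ?_, ?_⟩
    · by_cases hj : OnLine d0 (crd d0 n0) (site (v j))
      · rw [hline j j0 hj hj0]; exact h3
      · exact h2 _ hj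
    · intro j
      rw [crd_not_mkNode]
      exact hc j
  · push Not at hex
    obtain ⟨g', h1, h2, -⟩ := move g n0 d0 e0 h (mkNode d0 (crd d0 n0) c)
      (crd_mkNode _ _ _) (Sum.inl r0) (by simp)
    refine ⟨g', _, h1, fun j => gmap_congr (h2 _ (hex j)), ?_⟩
    intro j
    rw [crd_not_mkNode]
    exact hc j

theorem pos_step {k : ℕ} (hk : k ≤ M) (v w : Fin k → El M) (h : Pos v w) (i : Fin k) :
    ∃ e : El M ≃ El M, ∀ u, Pos (Function.update v i u) (Function.update w i (e u)) := by
  obtain ⟨g, n0, d0, e0, hdef, hw, hline⟩ := h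
  obtain ⟨g', n1, hd', hag, hfree⟩ := exists_move hk g n0 d0 e0 hdef v hline
  refine ⟨gequiv g', fun u => ⟨g', n1, !d0, false, hd', ?_, ?_⟩⟩
  · intro j
    by_cases hj : j = i
    · subst hj; simp [gequiv]
    · simp [hj, hw j, hag j]
  · intro a b ha hb
    have hone : ∀ a, OnLine (!d0) (crd (!d0) n1) (site (Function.update v i u a)) → a = i := by
      intro a ha
      by_contra hne
      rw [Function.update_of_ne hne] at ha
      exact hfree a ha
    rw [hone a ha, hone b hb]

/-- The trivial gauge. -/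
def gid (M : ℕ) : Gauge M where
  rho _ := 1
  eps _ _ _ := 1
  even _ := by decide

theorem gid_def : HasDef (gid M) (prv false (0, 0)) false true := by
  intro n d e
  have h1 : ∀ r : Bool × Nd M, s0 r * s1 r = if r = r0 then -1 else 1 := by
    intro r
    unfold s1
    split_ifs
    · rw [mul_neg, sq_one]
    · exact sq_one _
  cases e
  · simp [dfct, gid]
  · simp only [dfct, gid, if_true, one_mul, h1, and_true]
    refine if_congr ?_ rfl rfl
    simp only [r0, Prod.mk.injEq]
    constructor
    · rintro ⟨rfl, h⟩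
      refine ⟨?_, rfl⟩
      rw [← prv_nxt false n]
      congr 1
    · rintro ⟨rfl, rfl⟩
      exact ⟨rfl, nxt_prv _ _⟩

/-- Starting positions. -/
theorem exists_start {k : ℕ} (hk : k ≤ M) (v : Fin k → El M) :
    ∃ g : Gauge M, ∀ v' : Fin k → El M, (∀ j, site (v' j) = site (v j)) →
      Pos v' (fun j => gmap g (v' j)) := by
  obtain ⟨c, hc⟩ := exists_free hk v (!false)
  obtain ⟨g', h1, -, -⟩ := move (gid M) _ _ _ gid_def
    (mkNode false (crd false (prv false ((0, 0) : Nd M))) c)
      (crd_mkNode _ _ _) (Sum.inl r0) (by simp)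
  refine ⟨g', fun v' hv' => ⟨g', _, _, _, h1, fun j => rfl, ?_⟩⟩
  intro i j hi _
  exfalso
  rw [crd_not_mkNode, hv'] at hi
  exact hc i hi

/-- The two doubled matrices satisfy the same formulas with at most `M` variables. -/
theorem same_formulas {k : ℕ} (hk : k ≤ M) (φ : CForm k) :
    (∀ v, Holds (dbl (M := M) s0) φ v) ↔ (∀ w, Holds (dbl (M := M) s1) φ w) := by
  have hbf := holds_iff_of_backforth (dbl (M := M) s0) (dbl (M := M) s1) (Pos (k := k))
    pos_atom (fun v w h i => pos_step hk v w h i) φ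
  constructor
  · intro h w
    obtain ⟨g, hg⟩ := exists_start hk w
    have h1 := hg (fun j => (gequiv g).symm (w j)) (fun j => by
      have : w j = gmap g ((gequiv g).symm (w j)) := ((gequiv g).apply_symm_apply (w j)).symm
      conv_rhs => rw [this, site_gmap])
    have h2 := (hbf _ _ h1).1 (h _)
    have h3 : (fun j => gmap g ((gequiv g).symm (w j))) = w := by
      funext j
      exact (gequiv g).apply_symm_apply (w j)
    rw [h3] at h2
    exact h2
  · intro h v
    obtain ⟨g, hg⟩ := exists_start hk v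
    exact (hbf _ _ (hg v fun _ => rfl)).2 (h _)

end Game

end Pool.Agent.Lib.MP_64d474_lc.Sym
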