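import Pool.Agent.Lib.MP_64d474_lc.Sym.Base

namespace Pool.Agent.Lib.MP_64d474_lc.Sym

section Gauge

variable {M : ℕ}

/-- Gauge data: a sign for each link, and an even sign pattern on the four connections of each
node. -/
structure Gauge (M : ℕ) where
  rho : Bool × Nd M → ℤˣ
  eps : Nd M → Bool → Bool → ℤˣ
  even : ∀ n, eps n false false * eps n false true * eps n true false * eps n true true = 1

/-- The swap bit of a node. -/
def swb (E : Bool → Bool → ℤˣ) : Bool := decide (E false false * E true false = -1)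

/-- The column sign of a node. -/
def scol (E : Bool → Bool → ℤˣ) (c : Bool) : ℤˣ := if c then E true false else E true true

/-- The variable sign of a node. -/
def svar (E : Bool → Bool → ℤˣ) (x : Bool) : ℤˣ := if x then 1 else E true false * E true true

theorem local_gauge (E : Bool → Bool → ℤˣ)
    (hE : E false false * E false true * E true false * E true true = 1) (c x d e : Bool) :
    (if xor (xor c (swb E)) (xor x (swb E)) = e then sg d (xor x (swb E)) else 0) *
      ((scol E c * svar E x : ℤˣ) : ℤ) =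
    ((E d e : ℤˣ) : ℤ) * (if xor c x = e then sg d x else 0) := by
  have key : ∀ e1 e2 e3 e4 : ℤˣ, e1 * e2 * e3 * e4 = 1 →
      (if xor (xor c (decide (e1 * e3 = -1))) (xor x (decide (e1 * e3 = -1))) = e then
        sg d (xor x (decide (e1 * e3 = -1))) else 0) *
      (((if c then e3 else e4) * (if x then 1 else e3 * e4) : ℤˣ) : ℤ) =
      (((if d then (if e then e4 else e3) else (if e then e2 else e1)) : ℤˣ) : ℤ) *
        (if xor c x = e then sg d x else 0) := by
    revert c x d e
    decide
  have h := key (E false false) (E false true) (E true false) (E true true) hE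
  have h2 : (if d then (if e then E true true else E true false) else
      (if e then E false true else E false false)) = E d e := by
    cases d <;> cases e <;> rfl
  rw [h2] at h
  exact h

/-- Action on rows. -/
def rowMap (g : Gauge M) (r : (Bool × Nd M) × ℤˣ) : (Bool × Nd M) × ℤˣ :=
  (r.1, g.rho r.1 * r.2)

/-- Action on columns. -/
def colMap (g : Gauge M) (c : (Bool × Nd M) × ℤˣ) : (Bool × Nd M) × ℤˣ :=
  ((xor c.1.1 (swb (g.eps c.1.2)), c.1.2), scol (g.eps c.1.2) c.1.1 * c.2)

/-- Action on variables. -/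
def varMap (g : Gauge M) (x : (Bool × Nd M) × ℤˣ) : (Bool × Nd M) × ℤˣ :=
  ((xor x.1.1 (swb (g.eps x.1.2)), x.1.2), svar (g.eps x.1.2) x.1.1 * x.2)

theorem rowMap_inj (g : Gauge M) : Function.Injective (rowMap g) := by
  rintro ⟨r, σ⟩ ⟨r', σ'⟩ h
  simp only [rowMap, Prod.mk.injEq] at h
  obtain ⟨rfl, h⟩ := h
  rw [mul_right_inj] at h
  rw [h]

theorem colMap_inj (g : Gauge M) : Function.Injective (colMap g) := by
  rintro ⟨⟨c, n⟩, σ⟩ ⟨⟨c', n'⟩, σ'⟩ h
  simp only [colMap, Prod.mk.injEq] at h
  obtain ⟨⟨h1, rfl⟩, h⟩ := h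
  have hc : c = c' := by
    cases c <;> cases c' <;> cases swb (g.eps n) <;> simp_all
  subst hc
  rw [mul_right_inj] at h
  rw [h]

theorem varMap_inj (g : Gauge M) : Function.Injective (varMap g) := by
  rintro ⟨⟨c, n⟩, σ⟩ ⟨⟨c', n'⟩, σ'⟩ h
  simp only [varMap, Prod.mk.injEq] at h
  obtain ⟨⟨h1, rfl⟩, h⟩ := h
  have hc : c = c' := by
    cases c <;> cases c' <;> cases swb (g.eps n) <;> simp_all
  subst hc
  rw [mul_right_inj] at h
  rw [h]

/-- The defect of a connection. -/
def dfct (g : Gauge M) (n : Nd M) (d e : Bool) : ℤˣ :=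
  g.eps n d e * g.rho (d, if e then nxt d n else n) *
    (if e then s0 (d, nxt d n) * s1 (d, nxt d n) else 1)

theorem dbl_gauge (g : Gauge M) (d : Bool) (m : Nd M) (σ : ℤˣ) (c : Bool) (n : Nd M) (τ : ℤˣ)
    (x : Bool) (n' : Nd M) (ω : ℤˣ)
    (h : n = n' → (m = n → dfct g n d false = 1) ∧ (m = nxt d n → dfct g n d true = 1)) :
    dbl s1 (rowMap g ((d, m), σ)) (colMap g ((c, n), τ)) (varMap g ((x, n'), ω)) =
      dbl s0 ((d, m), σ) ((c, n), τ) ((x, n'), ω) := by
  by_cases hn : n = n'
  · subst hn
    obtain ⟨h1, h2⟩ := h rfl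
    have hl := local_gauge (g.eps n) (g.even n) c x d
    simp only [dbl, rowMap, colMap, varMap, base, if_true]
    have hx : xor (xor c (swb (g.eps n))) (xor x (swb (g.eps n))) = xor c x := by
      cases c <;> cases x <;> cases swb (g.eps n) <;> rfl
    have hu : ∀ u : ℤˣ, ((u : ℤˣ) : ℤ) * ((u : ℤˣ) : ℤ) = 1 := Int.units_coe_mul_self
    simp only [dfct, if_true, Bool.false_eq_true, if_false, mul_one] at h1 h2
    have hl0 := hl false
    have hl1 := hl true
    rw [hx] at hl0 hl1 ⊢
    congr 1
    have T1 : ((g.rho (d, m) : ℤˣ) : ℤ) * ((scol (g.eps n) c * svar (g.eps n) x : ℤˣ) : ℤ) *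
        (if m = n ∧ xor c x = false then sg d (xor x (swb (g.eps n))) else 0) =
        (if m = n ∧ xor c x = false then sg d x else 0) := by
      by_cases hm1 : m = n
      · subst hm1
        have k1 := congrArg (fun u : ℤˣ => (u : ℤ)) (h1 rfl)
        simp only [Units.val_mul, Units.val_one] at k1
        simp only [true_and]
        linear_combination ((g.rho (d, m) : ℤˣ) : ℤ) * hl0 +
          (if xor c x = false then sg d x else 0) * k1
      · simp [hm1]
    have T2 : ((g.rho (d, m) : ℤˣ) : ℤ) * ((scol (g.eps n) c * svar (g.eps n) x : ℤˣ) : ℤ) *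
        (if m = nxt d n ∧ xor c x = true then
          ((s1 (d, m) : ℤˣ) : ℤ) * sg d (xor x (swb (g.eps n))) else 0) =
        (if m = nxt d n ∧ xor c x = true then ((s0 (d, m) : ℤˣ) : ℤ) * sg d x else 0) := by
      by_cases hm2 : m = nxt d n
      · subst hm2
        have k2 := congrArg (fun u : ℤˣ => (u : ℤ)) (h2 rfl)
        simp only [Units.val_mul, Units.val_one] at k2
        simp only [true_and]
        have e1 : ∀ (p : Prop) [Decidable p] (a b : ℤ), (if p then a * b else 0) =
            a * (if p then b else 0) := by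
          intro p _ a b; split_ifs <;> simp
        rw [e1, e1]
        have hs0 := hu (s0 (d, nxt d n))
        have hs1 := hu (s1 (d, nxt d n))
        linear_combination (((g.rho (d, nxt d n) : ℤˣ) : ℤ) * ((s1 (d, nxt d n) : ℤˣ) : ℤ)) * hl1 +
          (if xor c x = true then sg d x else 0) * (((s0 (d, nxt d n) : ℤˣ) : ℤ) * k2 -
            ((g.rho (d, nxt d n) : ℤˣ) : ℤ) * ((s1 (d, nxt d n) : ℤˣ) : ℤ) *
              ((g.eps n d true : ℤˣ) : ℤ) * hs0)
      · simp [hm2]
    simp only [Units.val_mul] at T1 T2 ⊢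
    linear_combination ((σ : ℤ) * (τ : ℤ) * (ω : ℤ)) * (T1 + T2)
  · simp [dbl, rowMap, colMap, varMap, base, hn]

end Gauge

end Pool.Agent.Lib.MP_64d474_lc.Sym
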