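import Pool.Agent.Lib.MP_64d474_lc.Sym.Base

namespace Pool.Agent.Lib.MP_64d474_lc.Sym

section Gram

variable {M : ℕ} {R : Type*} [CommRing R]

/-- The link through a connection (direction, end, node). -/
def lnk (κ : Bool × Bool × Nd M) : Bool × Nd M :=
  (κ.1, if κ.2.1 then nxt κ.1 κ.2.2 else κ.2.2)

/-- The sign carried by a connection. -/
def st (s : Bool × Nd M → ℤˣ) (κ : Bool × Bool × Nd M) : ℤˣ := if κ.2.1 then s (lnk κ) else 1

/-- The alternating sign of a connection. -/
def qs (κ : Bool × Bool × Nd M) : ℤ := if xor κ.1 κ.2.1 then -1 else 1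

/-- Link by connection matrix. -/
def matS (R : Type*) [CommRing R] (s : Bool × Nd M → ℤˣ) :
    Matrix (Bool × Nd M) (Bool × Bool × Nd M) R :=
  fun r κ => if r = lnk κ then ((st s κ : ℤ) : R) else 0

/-- Connection by column matrix. -/
def matP (X : Bool × Nd M → R) : Matrix (Bool × Bool × Nd M) (Bool × Nd M) R :=
  fun κ c => if κ.2.2 = c.2 then (sg κ.1 (xor c.1 κ.2.1) : R) * X (xor c.1 κ.2.1, c.2) else 0

/-- The alternating diagonal matrix. -/
def matQ (M : ℕ) (R : Type*) [CommRing R] : Matrix (Bool × Bool × Nd M) (Bool × Bool × Nd M) R :=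
  Matrix.diagonal fun κ => (qs κ : R)

theorem qs_mul_self (κ : Bool × Bool × Nd M) : qs κ * qs κ = 1 := by
  unfold qs; split_ifs <;> rfl

theorem matQ_mul_self : matQ M R * matQ M R = 1 := by
  rw [matQ, Matrix.diagonal_mul_diagonal]
  rw [← Matrix.diagonal_one]
  congr 1
  funext κ
  rw [← Int.cast_mul, qs_mul_self, Int.cast_one]

theorem sum_conn (f : Bool × Bool × Nd M → R) :
    ∑ κ, f κ = ∑ n : Nd M, (f (true, true, n) + f (true, false, n) + (f (false, true, n) +
      f (false, false, n))) := by
  rw [Fintype.sum_prod_type]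
  simp only [Fintype.sum_prod_type (f := fun x : Bool × Nd M => _), Fintype.sum_bool,
    Finset.sum_add_distrib]
  ring

theorem matS_mul_matP (s : Bool × Nd M → ℤˣ) (X : Bool × Nd M → R) :
    matS R s * matP X = matA s X := by
  ext r c
  rw [Matrix.mul_apply, sum_conn]
  rw [Finset.sum_eq_single c.2]
  · obtain ⟨rd, rn⟩ := r
    obtain ⟨cb, cn⟩ := c
    cases rd <;> cases cb <;> simp [matS, matP, matA, lnk, st] <;>
      split_ifs with h1 h2 <;> (try rw [← h1]) <;> ring
  · intro n _ hn
    simp [matP, hn]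
  · simp

theorem matS_mul_matQ_mul_matP (s : Bool × Nd M → ℤˣ) (X : Bool × Nd M → R) :
    matS R s * matQ M R * matP X = matB s X := by
  ext r c
  rw [Matrix.mul_apply, sum_conn]
  rw [Finset.sum_eq_single c.2]
  · obtain ⟨rd, rn⟩ := r
    obtain ⟨cb, cn⟩ := c
    cases rd <;> cases cb <;>
      simp [matS, matP, matB, matQ, Matrix.mul_diagonal, lnk, st, qs] <;>
      split_ifs with h1 h2 <;> (try rw [← h1]) <;> ring
  · intro n _ hn
    simp [matP, hn]
  · simp

theorem lnk_eq_iff {κ κ' : Bool × Bool × Nd M} (h : lnk κ = lnk κ') (hne : κ ≠ κ') :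
    qs κ * qs κ' = -1 := by
  obtain ⟨d, e, n⟩ := κ
  obtain ⟨d', e', n'⟩ := κ'
  simp only [lnk, Prod.mk.injEq] at h
  obtain ⟨rfl, h⟩ := h
  by_cases he : e = e'
  · subst he
    exfalso
    apply hne
    cases e
    · simpa using h
    · have := nxt_inj d (by simpa using h)
      rw [this]
  · cases d <;> cases e <;> cases e' <;> simp_all [qs]

/-- The key orthogonality relation. -/
theorem gramS (s : Bool × Nd M → ℤˣ) :
    (matS R s).transpose * matS R s +
      matQ M R * ((matS R s).transpose * matS R s) * matQ M R = (2 : R) • 1 := by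
  have key : ∀ κ κ', ((matS R s).transpose * matS R s) κ κ' =
      if lnk κ = lnk κ' then ((st s κ : ℤ) : R) * ((st s κ' : ℤ) : R) else 0 := by
    intro κ κ'
    rw [Matrix.mul_apply]
    simp only [Matrix.transpose_apply, matS]
    rw [Finset.sum_eq_single (lnk κ)]
    · simp
    · intro r _ hr
      simp [hr]
    · simp
  ext κ κ'
  rw [Matrix.add_apply, matQ, Matrix.mul_diagonal, Matrix.diagonal_mul, key, Matrix.smul_apply,
    Matrix.one_apply]
  by_cases hk : κ = κ'
  · subst hk
    have h1 : ((qs κ : ℤ) : R) * ((qs κ : ℤ) : R) = 1 := by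
      rw [← Int.cast_mul, qs_mul_self, Int.cast_one]
    have h2 : ((st s κ : ℤ) : R) * ((st s κ : ℤ) : R) = 1 := by
      rw [← Int.cast_mul, Int.units_coe_mul_self, Int.cast_one]
    simp only [if_true, h2, mul_one, h1, smul_eq_mul]
    norm_num
  · by_cases hl : lnk κ = lnk κ'
    · have h1 : ((qs κ : ℤ) : R) * ((qs κ' : ℤ) : R) = -1 := by
        rw [← Int.cast_mul, lnk_eq_iff hl hk]; simp
      simp only [if_pos hl, if_neg hk, smul_zero]
      linear_combination (((st s κ : ℤ) : R) * ((st s κ' : ℤ) : R)) * h1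
    · simp [hl, hk]

/-- The squared norm of a node. -/
def nrm (X : Bool × Nd M → R) (c : Bool × Nd M) : R :=
  X (false, c.2) * X (false, c.2) + X (true, c.2) * X (true, c.2)

theorem gramP (X : Bool × Nd M → R) :
    (matP X).transpose * matP X = Matrix.diagonal fun c => 2 * nrm X c := by
  ext c c'
  rw [Matrix.mul_apply, sum_conn, Matrix.diagonal_apply]
  obtain ⟨cb, cn⟩ := c
  obtain ⟨cb', cn'⟩ := c'
  rw [Finset.sum_eq_single cn]
  · by_cases h : cn = cn'
    · subst h
      cases cb <;> cases cb' <;> simp [matP, nrm, sg] <;> ring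
    · simp [matP, h]
  · intro n _ hn
    simp [matP, hn]
  · simp

theorem gramPQ (X : Bool × Nd M → R) :
    (matP X).transpose * matQ M R * matP X = 0 := by
  ext c c'
  rw [Matrix.mul_apply, sum_conn]
  obtain ⟨cb, cn⟩ := c
  obtain ⟨cb', cn'⟩ := c'
  rw [Finset.sum_eq_single cn]
  · by_cases h : cn = cn'
    · subst h
      cases cb <;> cases cb' <;>
        simp [matP, matQ, Matrix.mul_diagonal, qs, sg] <;> ring
    · simp [matP, matQ, Matrix.mul_diagonal, h]
  · intro n _ hn
    simp [matP, matQ, Matrix.mul_diagonal, hn]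
  · simp

theorem matQ_transpose : (matQ M R).transpose = matQ M R := by
  rw [matQ, Matrix.diagonal_transpose]

theorem gram_diag (s : Bool × Nd M → ℤˣ) (X : Bool × Nd M → R) :
    (matA s X).transpose * matA s X + (matB s X).transpose * matB s X =
      Matrix.diagonal fun c => 4 * nrm X c := by
  have h := gramS (R := R) s
  have hP := gramP X
  rw [← matS_mul_matP, ← matS_mul_matQ_mul_matP, Matrix.transpose_mul, Matrix.transpose_mul,
    Matrix.transpose_mul, matQ_transpose]
  have e : (matP X).transpose * (matS R s).transpose * (matS R s * matP X) +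
      (matP X).transpose * (matQ M R * (matS R s).transpose) * (matS R s * matQ M R * matP X) =
      (matP X).transpose * ((matS R s).transpose * matS R s +
        matQ M R * ((matS R s).transpose * matS R s) * matQ M R) * matP X := by
    simp only [Matrix.mul_add, Matrix.add_mul, Matrix.mul_assoc]
  rw [e, h, Matrix.mul_smul, Matrix.smul_mul, Matrix.mul_one, hP]
  ext c c'
  simp only [Matrix.smul_apply, Matrix.diagonal_apply, smul_eq_mul]
  split_ifs <;> ring

theorem gram_cross (s : Bool × Nd M → ℤˣ) (X : Bool × Nd M → R) :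
    (matA s X).transpose * matB s X + (matB s X).transpose * matA s X = 0 := by
  have h := gramS (R := R) s
  have hP := gramPQ X
  have hQ := matQ_mul_self (M := M) (R := R)
  rw [← matS_mul_matP, ← matS_mul_matQ_mul_matP, Matrix.transpose_mul, Matrix.transpose_mul,
    Matrix.transpose_mul, matQ_transpose]
  have e : (matP X).transpose * (matS R s).transpose * (matS R s * matQ M R * matP X) +
      (matP X).transpose * (matQ M R * (matS R s).transpose) * (matS R s * matP X) =
      (matP X).transpose * ((matS R s).transpose * matS R s +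
        matQ M R * ((matS R s).transpose * matS R s) * matQ M R) * matQ M R * matP X := by
    simp only [Matrix.mul_add, Matrix.add_mul, Matrix.mul_assoc]
    rw [← Matrix.mul_assoc (matQ M R) (matQ M R), hQ, Matrix.one_mul]
  rw [e, h, Matrix.mul_smul, Matrix.smul_mul, Matrix.smul_mul, Matrix.mul_one, hP, smul_zero]

end Gram

end Pool.Agent.Lib.MP_64d474_lc.Sym
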