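import Pool.Agent.Lib.MP_64d474_lc.Sym.Gauge

namespace Pool.Agent.Lib.MP_64d474_lc.Sym

section Move

variable {M : ℕ}

/-- Coordinate that is constant along direction `d`. -/
def crd (d : Bool) (n : Nd M) : Fin (M + 1) := if d then n.2 else n.1

/-- Coordinate that moves along direction `d`. -/
def pos (d : Bool) (n : Nd M) : Fin (M + 1) := if d then n.1 else n.2

@[simp] theorem crd_nxt (d : Bool) (n : Nd M) : crd d (nxt d n) = crd d n := by
  cases d <;> rfl

@[simp] theorem pos_nxt (d : Bool) (n : Nd M) : pos d (nxt d n) = pos d n + 1 := by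
  cases d <;> rfl

theorem crd_not (d : Bool) (n : Nd M) : crd (!d) n = pos d n := by
  cases d <;> rfl

theorem node_ext (d : Bool) {n n' : Nd M} (h1 : crd d n = crd d n') (h2 : pos d n = pos d n') :
    n = n' := by
  cases d
  · exact Prod.ext h1 h2
  · exact Prod.ext h2 h1

/-- Links or nodes. -/
abbrev Site (M : ℕ) : Type := (Bool × Nd M) ⊕ Nd M

/-- The site lies on the line of direction `d` and coordinate `c`. -/
def OnLine (d : Bool) (c : Fin (M + 1)) : Site M → Prop
  | .inl r => r.1 = d ∧ crd d r.2 = c
  | .inr n => crd d n = c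

/-- Two gauges agree at a site. -/
def Agree (g g' : Gauge M) : Site M → Prop
  | .inl r => g.rho r = g'.rho r
  | .inr n => g.eps n = g'.eps n

/-- There is exactly one defect, at the connection `(n, d, e)`. -/
def HasDef (g : Gauge M) (n : Nd M) (d e : Bool) : Prop :=
  ∀ n' d' e', dfct g n' d' e' = if n' = n ∧ d' = d ∧ e' = e then -1 else 1

/-- Potential on links. -/
def potL (y z : Fin (M + 1)) : ℤˣ := if y < z then -1 else 1

/-- Potential on nodes. -/
def potN (y : Fin (M + 1)) (e : Bool) (z : Fin (M + 1)) : ℤˣ :=
  if y < z ∨ (e = false ∧ y = z) then -1 else 1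

theorem pot_own (y z : Fin (M + 1)) (e : Bool) :
    potN y e z * potL y z = if y = z ∧ e = false then -1 else 1 := by
  unfold potN potL
  rcases lt_trichotomy y z with h | h | h
  · simp [h, h.ne]
  · subst h; cases e <;> simp
  · simp [not_lt.2 h.le, h.ne']

theorem pot_next (y z : Fin (M + 1)) (e : Bool) :
    potN y e z * potL y (z + 1) =
      (if y = z ∧ e = true then -1 else 1) * (if z = Fin.last M then -1 else 1) := by
  unfold potN potL
  by_cases hz : z = Fin.last M
  · subst hz
    rw [Fin.last_add_one]
    have h0 : ¬ y < 0 := by simp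
    rcases (Fin.le_last y).lt_or_eq with h | h
    · simp [h, h.ne]
    · subst h; cases e <;> simp
  · have hz' : ∀ y : Fin (M + 1), y < z + 1 ↔ y ≤ z := by
      intro y
      rw [Fin.lt_def, Fin.le_def, Fin.val_add_one, if_neg hz]
      omega
    rw [if_neg hz, mul_one]
    simp only [hz']
    rcases lt_trichotomy y z with h | h | h
    · simp [h, h.le, h.ne]
    · subst h; cases e <;> simp
    · simp [not_lt.2 h.le, h.ne', not_le.2 h]

theorem sq_one (u : ℤˣ) : u * u = 1 := Int.units_mul_self u

/-- Changing a gauge by a sign on each link and signs on the nodes. -/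
def twist (g : Gauge M) (ψ : Bool × Nd M → ℤˣ) (a : Bool → Nd M → ℤˣ) (b : Nd M → ℤˣ) :
    Gauge M where
  rho r := g.rho r * ψ r
  eps n d e := g.eps n d e * a d n * (if e then 1 else b n)
  even n := by
    have hE := g.even n
    simp only [Bool.false_eq_true, if_false, if_true, mul_one]
    calc _ = (g.eps n false false * g.eps n false true * g.eps n true false *
        g.eps n true true) * (a false n * a false n) * (a true n * a true n) * (b n * b n) := by
          ac_rfl
      _ = 1 := by simp only [hE, sq_one]

theorem dfct_twist (g : Gauge M) (ψ : Bool × Nd M → ℤˣ) (a : Bool → Nd M → ℤˣ) (b : Nd M → ℤˣ)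
    (n : Nd M) (d e : Bool) :
    dfct (twist g ψ a b) n d e = dfct g n d e * (a d n * ψ (d, if e then nxt d n else n)) *
      (if e then 1 else b n) := by
  simp only [dfct, twist]
  ac_rfl

/-- Moving the defect along its line, turning at the node `n1`, and leaving a given site fixed. -/
theorem move (g : Gauge M) (n0 : Nd M) (d0 e0 : Bool) (h : HasDef g n0 d0 e0) (n1 : Nd M)
    (hn1 : crd d0 n1 = crd d0 n0) (t : Site M) (ht : t ≠ Sum.inr n1) :
    ∃ g' : Gauge M, HasDef g' n1 (!d0) false ∧
      (∀ u, ¬ OnLine d0 (crd d0 n0) u → Agree g g' u) ∧ Agree g g' t := by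
  -- total potentials up to a constant
  obtain ⟨LL, hLL⟩ : ∃ LL : Fin (M + 1) → ℤˣ,
    ∀ z, LL z = potL (pos d0 n0) z * potL (pos d0 n1) z := ⟨_, fun _ => rfl⟩
  obtain ⟨MM, hMM⟩ : ∃ MM : Fin (M + 1) → ℤˣ,
    ∀ z, MM z = potN (pos d0 n0) e0 z * potN (pos d0 n1) false z := ⟨_, fun _ => rfl⟩
  obtain ⟨η, hη⟩ : ∃ η : ℤˣ, (∀ r, t = Sum.inl r → LL (pos d0 r.2) * η = 1) ∧
      (∀ n, t = Sum.inr n → MM (pos d0 n) * η = 1) := by
    rcases t with r | n
    · refine ⟨LL (pos d0 r.2), ?_, ?_⟩
      · intro r' hr'
        rw [← Sum.inl.inj hr']; exact sq_one _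
      · intro n hn; cases hn
    · refine ⟨MM (pos d0 n), ?_, ?_⟩
      · intro r' hr'; cases hr'
      · intro n' hn'
        rw [← Sum.inr.inj hn']; exact sq_one _
  have hown : ∀ z, MM z * LL z = (if pos d0 n0 = z ∧ e0 = false then -1 else 1) *
      (if pos d0 n1 = z then -1 else 1) := by
    intro z
    rw [hMM, hLL]
    calc _ = (potN (pos d0 n0) e0 z * potL (pos d0 n0) z) *
        (potN (pos d0 n1) false z * potL (pos d0 n1) z) := by ac_rfl
      _ = _ := by rw [pot_own, pot_own]; simp
  have hnext : ∀ z, MM z * LL (z + 1) = (if pos d0 n0 = z ∧ e0 = true then -1 else 1) := by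
    intro z
    rw [hMM, hLL]
    calc _ = (potN (pos d0 n0) e0 z * potL (pos d0 n0) (z + 1)) *
        (potN (pos d0 n1) false z * potL (pos d0 n1) (z + 1)) := by ac_rfl
      _ = _ := by
        rw [pot_next, pot_next]
        simp only [Bool.false_eq_true, and_false, if_false, one_mul]
        rw [mul_assoc, sq_one, mul_one]
  refine ⟨twist g (fun r => if r.1 = d0 ∧ crd d0 r.2 = crd d0 n0 then LL (pos d0 r.2) * η else 1)
    (fun d n => if d = d0 ∧ crd d0 n = crd d0 n0 then MM (pos d0 n) * η else 1)
    (fun n => if n = n1 then -1 else 1), ?_, ?_, ?_⟩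
  · intro n d e
    rw [dfct_twist, h n d e]
    by_cases hd : d = d0
    · subst hd
      have hne : ¬ d = !d := by cases d <;> simp
      simp only [true_and, hne, false_and, and_false, if_false]
      by_cases hc : crd d n = crd d n0
      · have hpos : ∀ n', crd d n' = crd d n0 → (pos d n' = pos d n ↔ n = n') := by
          intro n' hn'
          constructor
          · intro h1; exact node_ext d (hc.trans hn'.symm) h1.symm
          · rintro rfl; rfl
        cases e
        · simp only [hc, Bool.false_eq_true, if_false, if_true]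
          calc _ = (if n = n0 ∧ false = e0 then (-1 : ℤˣ) else 1) *
              (MM (pos d n) * LL (pos d n)) * (η * η) * (if n = n1 then -1 else 1) := by
                ac_rfl
            _ = 1 := by
              rw [hown, sq_one]
              simp only [hpos n0 rfl, hpos n1 hn1]
              have hee : (false = e0) ↔ (e0 = false) := eq_comm
              rw [if_congr (and_congr Iff.rfl hee) rfl rfl, mul_one, ← mul_assoc, sq_one, one_mul,
                sq_one]
        · simp only [crd_nxt, pos_nxt, hc, if_true, mul_one]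
          calc _ = (if n = n0 ∧ true = e0 then (-1 : ℤˣ) else 1) *
              (MM (pos d n) * LL (pos d n + 1)) * (η * η) := by
                ac_rfl
            _ = 1 := by
              rw [hnext, sq_one]
              simp only [hpos n0 rfl]
              have hee : (true = e0) ↔ (e0 = true) := eq_comm
              rw [if_congr (and_congr Iff.rfl hee) rfl rfl, mul_one, sq_one]
      · have h1 : n ≠ n0 := by rintro rfl; exact hc rfl
        have h2 : n ≠ n1 := by rintro rfl; exact hc hn1
        cases e <;> simp [hc, h1, h2]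
    · have hd' : d = !d0 := by cases d <;> cases d0 <;> simp_all
      simp only [hd, false_and, and_false, if_false, mul_one, one_mul]
      cases e <;> simp [hd']
  · intro u hu
    rcases u with r | n
    · have : ¬ (r.1 = d0 ∧ crd d0 r.2 = crd d0 n0) := hu
      simp [Agree, twist, this]
    · have h1 : ¬ crd d0 n = crd d0 n0 := hu
      have h2 : n ≠ n1 := by rintro rfl; exact h1 hn1
      funext d e
      simp [twist, h1, h2]
  · rcases t with r | n
    · have := hη.1 r rfl
      simp [Agree, twist, this]
    · have h1 := hη.2 n rfl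
      have h2 : n ≠ n1 := by rintro rfl; exact ht rfl
      funext d e
      simp [twist, h1, h2]

end Move

end Pool.Agent.Lib.MP_64d474_lc.Sym
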