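import Pool.Agent.Lib.MP_64d474_lc.Sym.Sing

namespace Pool.Agent.Lib.MP_64d474_lc.Sym

open Matrix

section Nonsing

variable {M : ℕ} {R : Type*} [CommRing R]

/-- The test point. -/
def X0 (c : Bool × Nd M) : R := if c.1 then 0 else 1

theorem mulVec_X0 (v : Bool × Nd M → R) (d : Bool) (m : Nd M) :
    (matA s0 (X0 (R := R)) *ᵥ v) (d, m) =
      v (false, m) + ((s0 (d, m) : ℤ) : R) * v (true, prv d m) := by
  rw [Matrix.mulVec, dotProduct, Fintype.sum_prod_type]
  simp only [Fintype.sum_bool]
  rw [Finset.sum_eq_single (prv d m), Finset.sum_eq_single m]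
  · cases d <;> simp [matA, X0, sg, add_comm]
  · intro n _ hn
    simp [matA, X0, hn.symm]
  · simp
  · intro n _ hn
    have : ¬ m = nxt d n := fun h => hn ((eq_nxt_iff d m n).1 h).symm
    simp [matA, X0, this]
  · simp

theorem kernel_X0 [IsDomain R] (h2 : (2 : R) ≠ 0) (v : Bool × Nd M → R)
    (hv : matA s0 (X0 (R := R)) *ᵥ v = 0) : v = 0 := by
  have h : ∀ d m, v (false, m) + ((s0 (d, m) : ℤ) : R) * v (true, prv d m) = 0 := by
    intro d m
    rw [← mulVec_X0, hv]; rfl
  have hs : ∀ x y : Fin (M + 1), v (true, (x, y)) =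
      (if x + 1 = 0 then -1 else 1) * v (true, (x + 1, y - 1)) := by
    intro x y
    have h1 := h false (x + 1, y)
    have h3 := h true (x + 1, y)
    simp only [s0, prv, Bool.false_eq_true, if_false, true_and, false_and, if_true,
      add_sub_cancel_right, Units.val_one, Int.cast_one, one_mul, reduceCtorEq] at h1 h3
    split_ifs at h1 ⊢ with h4
    · simp only [Units.val_neg, Units.val_one, Int.cast_neg, Int.cast_one] at h1
      linear_combination h3 - h1
    · simp only [Units.val_one, Int.cast_one] at h1
      linear_combination h3 - h1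
  have hj : ∀ x y : Fin (M + 1), v (true, (0, y)) = v (true, (x, y - x)) := by
    intro x
    induction x using Fin.induction with
    | zero => intro y; simp
    | succ i ih =>
      intro y
      rw [ih y, hs, Fin.coeSucc_eq_succ, if_neg (Fin.succ_ne_zero i), one_mul,
        ← Fin.coeSucc_eq_succ, sub_sub]
  have h0 : ∀ y : Fin (M + 1), v (true, (0, y)) = 0 := by
    intro y
    have hM := hj (Fin.last M) y
    have hz : Fin.last M + 1 = 0 := Fin.last_add_one M
    rw [hs (Fin.last M), if_pos hz, hz, sub_sub, hz, sub_zero] at hM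
    have : (2 : R) * v (true, (0, y)) = 0 := by linear_combination hM
    exact (mul_eq_zero.1 this).resolve_left h2
  have ht : ∀ n : Nd M, v (true, n) = 0 := by
    rintro ⟨x, y⟩
    have := hj x (y + x)
    rw [h0] at this
    simpa using this.symm
  funext c
  obtain ⟨b, n⟩ := c
  cases b
  · have := h true n
    rw [ht, mul_zero, add_zero] at this
    exact this
  · exact ht n

end Nonsing

end Pool.Agent.Lib.MP_64d474_lc.Sym
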