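import Pool.Agent.Lib.MP_64d474_lc.Sym.Gram

namespace Pool.Agent.Lib.MP_64d474_lc.Sym

open Matrix

section Sing

variable {M : ℕ} {R : Type*} [CommRing R]

/-- The big orthogonal matrix. -/
def matG (s : Bool × Nd M → ℤˣ) (X : Bool × Nd M → R) :
    Matrix ((Bool × Nd M) ⊕ (Bool × Nd M)) ((Bool × Nd M) ⊕ (Bool × Nd M)) R :=
  Matrix.fromBlocks (matA s X) (matB s X) (matB s X) (matA s X)

theorem det_G_mul (s : Bool × Nd M → ℤˣ) (X : Bool × Nd M → R) :
    (matG s X).det * (matA s X).det = (∏ c, (4 * nrm X c)) * (matA s X).det := by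
  have h1 : (matG s X)ᵀ * Matrix.fromBlocks (matA s X) 0 (matB s X) 1 =
      Matrix.fromBlocks (Matrix.diagonal fun c => 4 * nrm X c) (matB s X)ᵀ 0 (matA s X)ᵀ := by
    rw [matG, Matrix.fromBlocks_transpose, Matrix.fromBlocks_multiply]
    congr 1
    · exact gram_diag s X
    · simp
    · have := gram_cross s X
      rw [add_comm] at this
      exact this
    · simp
  have h2 := congrArg Matrix.det h1
  rw [Matrix.det_mul, Matrix.det_transpose, Matrix.det_fromBlocks_zero₁₂, Matrix.det_one, mul_one,
    Matrix.det_fromBlocks_zero₂₁, Matrix.det_diagonal, Matrix.det_transpose] at h2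
  exact h2

theorem matA_s1 (X : Bool × Nd M → R) (r : Bool × Nd M) :
    matA s1 X r = if r = r0 then matB s0 X r else matA s0 X r := by
  funext c
  by_cases h : r = r0
  · subst h
    simp [matA, matB, s1, r0]
    try rfl
  · simp [matA, s1, h]

theorem matB_s1 (X : Bool × Nd M → R) (r : Bool × Nd M) :
    matB s1 X r = if r = r0 then matA s0 X r else matB s0 X r := by
  funext c
  by_cases h : r = r0
  · subst h
    simp [matA, matB, s1, r0]
    try rfl
  · simp [matB, s1, h]

theorem matG_s1 (X : Bool × Nd M → R) :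
    matG s1 X = (matG s0 X).submatrix (Equiv.swap (Sum.inl r0) (Sum.inr r0)) id := by
  ext i j
  rw [Matrix.submatrix_apply, id]
  rcases i with i | i
  · by_cases h : i = r0
    · subst h
      rw [Equiv.swap_apply_left]
      rcases j with j | j
      · simp [matG, matA_s1]
      · simp [matG, matB_s1]
    · rw [Equiv.swap_apply_of_ne_of_ne (by simp [h]) (by simp)]
      rcases j with j | j
      · simp [matG, matA_s1, h]
      · simp [matG, matB_s1, h]
  · by_cases h : i = r0
    · subst h
      rw [Equiv.swap_apply_right]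
      rcases j with j | j
      · simp [matG, matB_s1]
      · simp [matG, matA_s1]
    · rw [Equiv.swap_apply_of_ne_of_ne (by simp) (by simp [h])]
      rcases j with j | j
      · simp [matG, matB_s1, h]
      · simp [matG, matA_s1, h]

theorem det_G_s1 (X : Bool × Nd M → R) : (matG s1 X).det = - (matG s0 X).det := by
  rw [matG_s1, Matrix.det_permute, Equiv.Perm.sign_swap (by simp)]
  simp

/-- If the first matrix is nonsingular then the second is singular. -/
theorem det_A_s1_eq_zero [IsDomain R] (h2 : (2 : R) ≠ 0) (X : Bool × Nd M → R)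
    (hX : ∀ c, nrm X c ≠ 0) (h0 : (matA s0 X).det ≠ 0) : (matA s1 X).det = 0 := by
  have e0 := det_G_mul s0 X
  have e1 := det_G_mul s1 X
  rw [det_G_s1] at e1
  have e0' : (matG s0 X).det = ∏ c, (4 * nrm X c) := mul_right_cancel₀ h0 e0
  rw [e0'] at e1
  have e3 : (2 : R) * (∏ c, (4 * nrm X c)) * (matA s1 X).det = 0 := by linear_combination -e1
  have h4 : (4 : R) ≠ 0 := by
    have : (4 : R) = 2 * 2 := by norm_num
    rw [this]; exact mul_ne_zero h2 h2
  have hD : (∏ c, (4 * nrm X c)) ≠ 0 := Finset.prod_ne_zero_iff.2 fun c _ =>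
    mul_ne_zero h4 (hX c)
  rcases mul_eq_zero.1 e3 with h | h
  · exact absurd h (mul_ne_zero h2 hD)
  · exact h

end Sing

end Pool.Agent.Lib.MP_64d474_lc.Sym
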